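import Pool.Agent.E8helper61.LK.Defs

set_option autoImplicit false

namespace H61LK

open Finset

/-- the size of the sets in `S_RAND` -/
def kk (t s : ℕ) : ℕ := t * (2 ^ s * (2 * t * s + t + 2))

lemma kk_one_le (t s : ℕ) (ht : 1 ≤ t) : 2 ^ s ≤ kk t s := by
  unfold kk
  have h1 : 1 ≤ 2 * t * s + t + 2 := by omega
  calc 2 ^ s = 1 * (2 ^ s * 1) := by ring
    _ ≤ t * (2 ^ s * (2 * t * s + t + 2)) := Nat.mul_le_mul ht (Nat.mul_le_mul_left _ h1)

lemma kk_succ_le (t s : ℕ) (ht : 1 ≤ t) (hs : 1 ≤ s) : kk t (s + 1) ≤ 14 * t ^ 2 * s * 2 ^ s := by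
  unfold kk
  have h1 : 1 ≤ t * s := Nat.one_le_iff_ne_zero.2 (by positivity)
  have h2 : t ≤ t * s := Nat.le_mul_of_pos_right t hs
  have h3 : 2 * t * (s + 1) + t + 2 ≤ 7 * (t * s) := by nlinarith
  calc t * (2 ^ (s + 1) * (2 * t * (s + 1) + t + 2)) ≤ t * (2 ^ (s + 1) * (7 * (t * s))) :=
        Nat.mul_le_mul_left _ (Nat.mul_le_mul_left _ h3)
    _ = 14 * t ^ 2 * s * 2 ^ s := by ring

lemma one_le_x (h1 : S_GL) (t l x : ℕ) (ht : 1 ≤ t) (hl : 2 ≤ l) (hx : IsBound t l x) : 1 ≤ x := by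
  have h := h1 t l (t + l - 2) 1 Unit (Fin (t + l - 2)) (fun _ => univ) ht hl le_rfl le_rfl
    (fun _ => by simp) (fun _ _ => by simp; omega)
    (fun S _ => by
      refine (card_le_card (filter_subset _ _)).trans ?_
      simp) x hx
  simpa using h

lemma two_pow_le (h1 : S_GL) (h2 : S_RAND) (t l x s : ℕ) (ht : 1 ≤ t) (hl : 2 ≤ l)
    (hx : IsBound t l x) (hs : 1 ≤ s) (hk : kk t s ≤ t + l - 2) :
    2 ^ (s * t - 1) ≤ 11 * t ^ 2 * s * x := by
  obtain ⟨P, K, i1, i2, i3, i4, i5, f, hc, hf, hi, hd⟩ := h2 t s ht hs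
  have hD : 1 ≤ 11 * t ^ 2 * s := Nat.one_le_iff_ne_zero.2 (by positivity)
  have h := h1 t l (kk t s) (11 * t ^ 2 * s) P K f ht hl hD hk hf hi hd x hx
  rwa [hc] at h

theorem t_ASYM (h1 : S_GL) (h2 : S_RAND) : S_ASYM := by
  intro t ht
  have hlog2 : (0 : ℝ) < Real.log 2 := Real.log_pos (by norm_num)
  have ht0 : (0 : ℝ) < t := by exact_mod_cast ht
  set A : ℝ := (14 * (t : ℝ) ^ 2) ^ t * (22 * (t : ℝ) ^ 2) with hA
  have hA0 : 0 < A := by positivity
  have hk0 : (0 : ℝ) < kk t 1 := by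
    have := kk_one_le t 1 ht
    have h3 : 0 < kk t 1 := by omega
    exact_mod_cast h3
  refine ⟨min (Real.log 2 ^ (t + 1) / A) (Real.log 2 ^ (t + 1) / (kk t 1 : ℝ) ^ t), by positivity, ?_⟩
  intro l hl x hx
  have hlR : (2 : ℝ) ≤ l := by exact_mod_cast hl
  have hl0 : (0 : ℝ) < l := by linarith
  have hll : Real.log 2 ≤ Real.log l := Real.log_le_log (by norm_num) hlR
  have hlog : 0 < Real.log l := hlog2.trans_le hll
  have hlp : 0 < Real.log l ^ (t + 1) := by positivity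
  by_cases hcase : kk t 1 ≤ l - 1
  · -- the main case
    set s := Nat.findGreatest (fun s => kk t s ≤ l - 1) l with hs
    have hs1 : 1 ≤ s := Nat.le_findGreatest (by omega) hcase
    have hsk : kk t s ≤ l - 1 := by
      have := Nat.findGreatest_spec (P := fun s => kk t s ≤ l - 1) (m := 1) (n := l) (by omega) hcase
      exact this
    have hsl : 2 ^ s ≤ l := by
      have := kk_one_le t s ht
      omega
    have hslt : s < l := lt_of_lt_of_le Nat.lt_two_pow_self hsl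
    have hnot : ¬ kk t (s + 1) ≤ l - 1 := by
      have := Nat.findGreatest_is_greatest (P := fun s => kk t s ≤ l - 1) (n := l) (k := s + 1)
        (by omega) (by omega)
      exact this
    have hle : l ≤ 14 * t ^ 2 * s * 2 ^ s := by
      have := kk_succ_le t s ht hs1
      omega
    have hmain := two_pow_le h1 h2 t l x s ht hl hx hs1 (by omega)
    have hs0 : (0 : ℝ) < s := by exact_mod_cast hs1
    -- `s log 2 ≤ log l`
    have hslog : (s : ℝ) * Real.log 2 ≤ Real.log l := by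
      have h3 : ((2 : ℝ) ^ s) ≤ l := by exact_mod_cast hsl
      have h4 := Real.log_le_log (by positivity) h3
      rwa [Real.log_pow] at h4
    have h5 : (l : ℝ) ≤ 14 * (t : ℝ) ^ 2 * s * 2 ^ s := by exact_mod_cast hle
    have h6 : (l : ℝ) ^ t ≤ (14 * (t : ℝ) ^ 2) ^ t * (s : ℝ) ^ t * (2 : ℝ) ^ (s * t) := by
      calc (l : ℝ) ^ t ≤ (14 * (t : ℝ) ^ 2 * s * 2 ^ s) ^ t := pow_le_pow_left₀ hl0.le h5 t
        _ = (14 * (t : ℝ) ^ 2) ^ t * (s : ℝ) ^ t * (2 : ℝ) ^ (s * t) := by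
            rw [mul_pow, mul_pow, ← pow_mul]
    have h7 : (2 : ℝ) ^ (s * t) ≤ 2 * (11 * (t : ℝ) ^ 2 * s * x) := by
      have h8 : (2 : ℝ) ^ (s * t - 1) ≤ 11 * (t : ℝ) ^ 2 * s * x := by exact_mod_cast hmain
      have h9 : (2 : ℝ) ^ (s * t) = 2 * 2 ^ (s * t - 1) := by
        rw [← pow_succ']
        congr 1
        have : 1 ≤ s * t := Nat.one_le_iff_ne_zero.2 (by positivity)
        omega
      rw [h9]
      linarith
    have h10 : (l : ℝ) ^ t ≤ A * (s : ℝ) ^ (t + 1) * x := by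
      calc (l : ℝ) ^ t ≤ (14 * (t : ℝ) ^ 2) ^ t * (s : ℝ) ^ t * (2 * (11 * (t : ℝ) ^ 2 * s * x)) :=
            h6.trans (mul_le_mul_of_nonneg_left h7 (by positivity))
        _ = A * (s : ℝ) ^ (t + 1) * x := by rw [hA]; ring
    have h11 : Real.log 2 ^ (t + 1) * (s : ℝ) ^ (t + 1) ≤ Real.log l ^ (t + 1) := by
      rw [← mul_pow]
      refine pow_le_pow_left₀ (by positivity) ?_ _
      linarith
    have hx0 : (0 : ℝ) ≤ x := Nat.cast_nonneg x
    calc min (Real.log 2 ^ (t + 1) / A) (Real.log 2 ^ (t + 1) / (kk t 1 : ℝ) ^ t) * (l : ℝ) ^ t /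
          Real.log l ^ (t + 1) ≤ (Real.log 2 ^ (t + 1) / A) * (l : ℝ) ^ t / Real.log l ^ (t + 1) := by
          gcongr
          exact min_le_left _ _
      _ ≤ x := by
          rw [div_le_iff₀ hlp, div_mul_eq_mul_div, div_le_iff₀ hA0]
          calc Real.log 2 ^ (t + 1) * (l : ℝ) ^ t ≤
                Real.log 2 ^ (t + 1) * (A * (s : ℝ) ^ (t + 1) * x) :=
                mul_le_mul_of_nonneg_left h10 (by positivity)
            _ = (Real.log 2 ^ (t + 1) * (s : ℝ) ^ (t + 1)) * (A * x) := by ring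
            _ ≤ Real.log l ^ (t + 1) * (A * x) := mul_le_mul_of_nonneg_right h11 (by positivity)
            _ = x * Real.log l ^ (t + 1) * A := by ring
  · have hlk : l ≤ kk t 1 := by omega
    have hx1 : (1 : ℝ) ≤ x := by exact_mod_cast one_le_x h1 t l x ht hl hx
    have hlkR : (l : ℝ) ≤ kk t 1 := by exact_mod_cast hlk
    refine le_trans ?_ hx1
    rw [div_le_one hlp]
    have h3 : (l : ℝ) ^ t ≤ (kk t 1 : ℝ) ^ t := pow_le_pow_left₀ hl0.le hlkR t
    have h4 : Real.log 2 ^ (t + 1) ≤ Real.log l ^ (t + 1) := pow_le_pow_left₀ hlog2.le hll _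
    calc min (Real.log 2 ^ (t + 1) / A) (Real.log 2 ^ (t + 1) / (kk t 1 : ℝ) ^ t) * (l : ℝ) ^ t ≤
          (Real.log 2 ^ (t + 1) / (kk t 1 : ℝ) ^ t) * (kk t 1 : ℝ) ^ t :=
          mul_le_mul (min_le_right _ _) h3 (by positivity) (by positivity)
      _ = Real.log 2 ^ (t + 1) := by field_simp
      _ ≤ Real.log l ^ (t + 1) := h4

end H61LK
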