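import Pool.Agent.E8helper61.LK.Defs

set_option autoImplicit false

namespace H61LK

open Finset

theorem t_SMALL (h1 : S_GL) (h2 : S_PG) : S_SMALL := by
  intro q hq
  obtain ⟨P, K, i1, i2, i3, i4, i5, f, hc, hf, hi, hd, hdd⟩ := h2 q hq
  constructor
  · intro l hl x hx
    have h := h1 1 l (q + 1) (q + 1) P K f le_rfl (by omega) (by omega) (by omega) hf hi
      (fun S hS => by
        obtain ⟨a, rfl⟩ := card_eq_one.1 hS
        refine (card_le_card ?_).trans (hd a)
        intro p hp
        simp only [mem_filter, mem_univ, true_and, singleton_subset_iff] at hp ⊢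
        exact hp) x hx
    rwa [hc] at h
  · intro l hl x hx
    have hone : ∀ a b : K, a ≠ b → ∀ (T : Finset (P × P)),
        ((∀ p ∈ T, a ∈ f p.1 ∧ b ∈ f p.1) ∨ (∀ p ∈ T, a ∈ f p.2 ∧ b ∈ f p.2)) →
        T.card ≤ (q + 1) ^ 2 := by
      intro a b hab T hT
      have hq2 : 1 * (q ^ 2 + q + 1) ≤ (q + 1) ^ 2 := by nlinarith
      rcases hT with hT | hT
      · calc T.card ≤ ((univ.filter fun p => a ∈ f p ∧ b ∈ f p) ×ˢ (univ : Finset P)).card := by
              apply card_le_card
              intro p hp
              simp only [mem_product, mem_filter, mem_univ, true_and, and_true]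
              exact hT p hp
          _ = (univ.filter fun p => a ∈ f p ∧ b ∈ f p).card * Fintype.card P := by
              rw [card_product, card_univ]
          _ ≤ 1 * (q ^ 2 + q + 1) := by
              rw [hc]
              exact Nat.mul_le_mul_right _ (hdd a b hab)
          _ ≤ (q + 1) ^ 2 := hq2
      · calc T.card ≤ ((univ : Finset P) ×ˢ (univ.filter fun p => a ∈ f p ∧ b ∈ f p)).card := by
              apply card_le_card
              intro p hp
              simp only [mem_product, mem_filter, mem_univ, true_and]
              exact hT p hp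
          _ = (univ.filter fun p => a ∈ f p ∧ b ∈ f p).card * Fintype.card P := by
              rw [card_product, card_univ, mul_comm]
          _ ≤ 1 * (q ^ 2 + q + 1) := by
              rw [hc]
              exact Nat.mul_le_mul_right _ (hdd a b hab)
          _ ≤ (q + 1) ^ 2 := hq2
    have htwo : ∀ a b : K, ∀ (T : Finset (P × P)), (∀ p ∈ T, a ∈ f p.1 ∧ b ∈ f p.2) →
        T.card ≤ (q + 1) ^ 2 := by
      intro a b T hT
      calc T.card ≤ ((univ.filter fun p => a ∈ f p) ×ˢ (univ.filter fun p => b ∈ f p)).card := by
            apply card_le_card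
            intro p hp
            simp only [mem_product, mem_filter, mem_univ, true_and]
            exact hT p hp
        _ = (univ.filter fun p => a ∈ f p).card * (univ.filter fun p => b ∈ f p).card := by
            rw [card_product]
        _ ≤ (q + 1) * (q + 1) := Nat.mul_le_mul (hd a) (hd b)
        _ = (q + 1) ^ 2 := by ring
    have h := h1 2 l (2 * (q + 1)) ((q + 1) ^ 2) (P × P) (K ⊕ K)
      (fun p => (f p.1).disjSum (f p.2)) (by norm_num) (by omega)
      (Nat.one_le_iff_ne_zero.2 (by positivity)) (by omega)
      (fun p => by rw [card_disjSum, hf, hf]; ring)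
      (fun p p' => by
        have h3 := hi p.1 p'.1
        have h4 := hi p.2 p'.2
        obtain ⟨a, ha⟩ := card_pos.1 (show 0 < (f p.1 ∩ f p'.1).card by omega)
        obtain ⟨b, hb⟩ := card_pos.1 (show 0 < (f p.2 ∩ f p'.2).card by omega)
        rw [mem_inter] at ha hb
        have h5 : ({Sum.inl a, Sum.inr b} : Finset (K ⊕ K)).card = 2 := card_pair (by simp)
        rw [← h5]
        apply card_le_card
        intro u hu
        rw [mem_insert, mem_singleton] at hu
        rcases hu with rfl | rfl
        · rw [mem_inter, inl_mem_disjSum, inl_mem_disjSum]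
          exact ha
        · rw [mem_inter, inr_mem_disjSum, inr_mem_disjSum]
          exact hb)
      (fun S hS => by
        obtain ⟨u, v, huv, rfl⟩ := card_eq_two.1 hS
        have hsub : ∀ p ∈ univ.filter (fun p : P × P => {u, v} ⊆ (f p.1).disjSum (f p.2)),
            u ∈ (f p.1).disjSum (f p.2) ∧ v ∈ (f p.1).disjSum (f p.2) := by
          intro p hp
          rw [mem_filter] at hp
          exact ⟨hp.2 (mem_insert_self _ _), hp.2 (mem_insert_of_mem (mem_singleton_self _))⟩
        rcases u with a | a <;> rcases v with b | b
        · refine hone a b (fun h => huv (by rw [h])) _ (Or.inl fun p hp => ?_)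
          have := hsub p hp
          rwa [inl_mem_disjSum, inl_mem_disjSum] at this
        · refine htwo a b _ fun p hp => ?_
          have := hsub p hp
          rwa [inl_mem_disjSum, inr_mem_disjSum] at this
        · refine htwo b a _ fun p hp => ?_
          have := hsub p hp
          rw [inl_mem_disjSum, inr_mem_disjSum] at this
          exact ⟨this.2, this.1⟩
        · refine hone a b (fun h => huv (by rw [h])) _ (Or.inr fun p hp => ?_)
          have := hsub p hp
          rwa [inr_mem_disjSum, inr_mem_disjSum] at this) x hx
    rw [Fintype.card_prod, hc] at h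
    calc (q ^ 2 + q + 1) ^ 2 = (q ^ 2 + q + 1) * (q ^ 2 + q + 1) := by ring
      _ ≤ (q + 1) ^ 2 * x := h

end H61LK
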